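import Pool.Agent.Lib_helper31.GC34.Defs2
import Pool.Agent.Lib_helper32.TF.INE2

/-!
# The integral over `τ` on the matrix side
-/

open scoped BigOperators ComplexOrder Kronecker MatrixOrder Topology
open MeasureTheory Set Matrix Filter

namespace Pool.Agent.Lib_helper27.GC34

open Pool.Agent.GC34 Pool.Agent.RC DEC SER

variable {κ : Type} [Fintype κ] [DecidableEq κ]

/-! ### the constant -/

theorem bet_refl {α : ℝ} : bet (6 - α) 6 = bet α 6 := by
  unfold bet
  have h := integral_comp_rpow_Ioi (fun r : ℝ => r ^ (6 - α - 1) * ((1 + r) ^ 6)⁻¹)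
    (p := -1) (by norm_num)
  rw [← h]
  apply setIntegral_congr_fun measurableSet_Ioi
  intro x hx
  have hx0 : (0 : ℝ) < x := hx
  simp only [smul_eq_mul]
  have e1 : x ^ (-1 : ℝ) = x⁻¹ := Real.rpow_neg_one x
  rw [e1, Real.inv_rpow hx0.le, ← Real.rpow_neg hx0.le]
  have e2 : ((1 + x⁻¹) ^ 6)⁻¹ = x ^ (6 : ℝ) * ((1 + x) ^ 6)⁻¹ := by
    have : (1 + x⁻¹) = (1 + x) * x⁻¹ := by field_simp; ring
    rw [this, mul_pow, mul_inv, inv_pow, inv_inv]
    have h6 : x ^ (6 : ℝ) = x ^ (6 : ℕ) := by norm_cast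
    rw [h6]
    ring
  rw [e2]
  have e3 : |(-1 : ℝ)| = 1 := by norm_num
  rw [e3, one_mul]
  have e4 : x ^ (-1 - 1 : ℝ) * (x ^ (-(6 - α - 1)) * (x ^ (6 : ℝ) * ((1 + x) ^ 6)⁻¹)) =
      (x ^ (-1 - 1 : ℝ) * x ^ (-(6 - α - 1)) * x ^ (6 : ℝ)) * ((1 + x) ^ 6)⁻¹ := by ring
  rw [e4, ← Real.rpow_add hx0, ← Real.rpow_add hx0]
  congr 2
  ring

theorem bet_step {α : ℝ} (h0 : 0 < α) (h5 : α < 5) :
    α * bet α 6 = (5 - α) * bet (α + 1) 6 := by
  set f : ℝ → ℝ := fun r => r ^ α * ((1 + r) ^ 5)⁻¹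
  set f' : ℝ → ℝ := fun r => α * (r ^ (α - 1) * ((1 + r) ^ 6)⁻¹) -
    (5 - α) * (r ^ (α + 1 - 1) * ((1 + r) ^ 6)⁻¹)
  have i1 : IntegrableOn (fun r : ℝ => r ^ (α - 1) * ((1 + r) ^ 6)⁻¹) (Ioi 0) :=
    integrableOn_bet α 6 h0 (by norm_num; linarith)
  have i2 : IntegrableOn (fun r : ℝ => r ^ (α + 1 - 1) * ((1 + r) ^ 6)⁻¹) (Ioi 0) :=
    integrableOn_bet (α + 1) 6 (by linarith) (by norm_num; linarith)
  have hc : ContinuousWithinAt f (Ici 0) 0 := by
    apply ContinuousAt.continuousWithinAt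
    apply ContinuousAt.mul
    · exact Real.continuousAt_rpow_const 0 α (Or.inr h0.le)
    · apply ContinuousAt.inv₀
      · fun_prop
      · norm_num
  have hd : ∀ x ∈ Ioi (0 : ℝ), HasDerivAt f (f' x) x := by
    intro x hx
    have hx0 : (0 : ℝ) < x := hx
    have d1 : HasDerivAt (fun r : ℝ => r ^ α) (α * x ^ (α - 1)) x :=
      Real.hasDerivAt_rpow_const (Or.inl hx0.ne')
    have d2 : HasDerivAt (fun r : ℝ => ((1 + r) ^ 5)⁻¹) (-(5 * (1 + x) ^ 4) / ((1 + x) ^ 5) ^ 2)
        x := by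
      have d3 : HasDerivAt (fun r : ℝ => (1 + r) ^ 5) (5 * (1 + x) ^ 4) x := by
        have := ((hasDerivAt_id x).const_add 1).fun_pow 5
        simpa using this
      exact d3.inv (by positivity)
    have d := d1.mul d2
    have e : f' x = α * x ^ (α - 1) * ((1 + x) ^ 5)⁻¹ +
        x ^ α * (-(5 * (1 + x) ^ 4) / ((1 + x) ^ 5) ^ 2) := by
      simp only [f']
      have e1 : α + 1 - 1 = α := by ring
      have e2 : x ^ α = x ^ (α - 1) * x := by
        rw [Real.rpow_sub_one hx0.ne']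
        field_simp
      rw [e1, e2]
      have h1 : (1 + x) ≠ 0 := by positivity
      field_simp
      ring
    rw [e]
    exact d
  have ht : Tendsto f atTop (𝓝 0) := by
    have h1 : Tendsto (fun r : ℝ => r ^ (-(5 - α))) atTop (𝓝 0) :=
      tendsto_rpow_neg_atTop (by linarith)
    apply squeeze_zero' _ _ h1
    · filter_upwards [eventually_gt_atTop 0] with r hr
      simp only [f]
      positivity
    · filter_upwards [eventually_gt_atTop 0] with r hr
      simp only [f]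
      have e : r ^ (-(5 - α)) = r ^ α * (r ^ (5 : ℕ))⁻¹ := by
        rw [← Real.rpow_natCast r 5, ← Real.rpow_neg hr.le, ← Real.rpow_add hr]
        congr 1
        push_cast
        ring
      rw [e]
      apply mul_le_mul_of_nonneg_left _ (by positivity)
      apply inv_anti₀ (by positivity)
      apply pow_le_pow_left₀ hr.le
      linarith
  have h := integral_Ioi_of_hasDerivAt_of_tendsto hc hd
    ((i1.const_mul α).sub (i2.const_mul (5 - α))) ht
  have f0 : f 0 = 0 := by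
    simp only [f]
    rw [Real.zero_rpow h0.ne']
    simp
  rw [f0, sub_zero] at h
  have h2 : ∫ x in Ioi (0 : ℝ), f' x = α * bet α 6 - (5 - α) * bet (α + 1) 6 := by
    simp only [f']
    rw [integral_sub (i1.const_mul α) (i2.const_mul (5 - α)), integral_const_mul,
      integral_const_mul]
    rfl
  rw [h2] at h
  linarith

theorem bet_const {p : ℝ} (h3 : 3 < p) (h4 : p < 4) : (5 - p) * bet (5 - p) 6 = p * bet p 6 := by
  have h1 := bet_step (α := p) (by linarith) (by linarith)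
  have h2 := bet_refl (α := p + 1)
  have h3 : 6 - (p + 1) = 5 - p := by ring
  rw [h3] at h2
  rw [h2, h1]

/-! ### the scalar integral -/

theorem scalar_int {p y : ℝ} (h3 : 3 < p) (h4 : p < 4) (hy : 0 ≤ y) :
    IntegrableOn (fun τ : ℝ => τ ^ (4 - p) * (y / (1 + τ * y)) ^ 6) (Ioi 0) ∧
    ∫ τ in Ioi (0 : ℝ), τ ^ (4 - p) * (y / (1 + τ * y)) ^ 6 = bet (5 - p) 6 * y ^ (p + 1) := by
  rcases hy.eq_or_lt with rfl | hy
  · have : (fun τ : ℝ => τ ^ (4 - p) * (0 / (1 + τ * 0)) ^ 6) = fun _ => 0 := by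
      ext τ
      simp
    rw [this]
    refine ⟨integrableOn_zero, ?_⟩
    rw [Real.zero_rpow (by linarith)]
    simp
  have e : ∀ τ ∈ Ioi (0 : ℝ), τ ^ (5 - p - 1) * ((y⁻¹ + τ) ^ 6)⁻¹ =
      τ ^ (4 - p) * (y / (1 + τ * y)) ^ 6 := by
    intro τ hτ
    have hτ0 : (0 : ℝ) < τ := hτ
    have e1 : 5 - p - 1 = 4 - p := by ring
    have e2 : y / (1 + τ * y) = (y⁻¹ + τ)⁻¹ := by
      field_simp
    rw [e1, e2, inv_pow]
  constructor
  · exact (integrableOn_scalar (5 - p) y⁻¹ 6 (by linarith) (by norm_num; linarith)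
      (by positivity)).congr_fun e measurableSet_Ioi
  · rw [← setIntegral_congr_fun measurableSet_Ioi e, bet_scale (5 - p) y⁻¹ 6 (by positivity)]
    rw [mul_comm]
    congr 1
    rw [Real.inv_rpow hy.le, ← Real.rpow_neg hy.le]
    congr 1
    push_cast
    ring

/-! ### the sixth power of the resolvent -/

theorem trace_pow_cyc (X Q : Matrix κ κ ℂ) (n : ℕ) :
    ((X * Q) ^ (n + 1)).trace = ((Q * X) ^ (n + 1)).trace := by
  have h : ∀ m : ℕ, (X * Q) ^ (m + 1) = X * (Q * X) ^ m * Q := by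
    intro m
    induction m with
    | zero => simp
    | succ m ih =>
      rw [pow_succ, ih, pow_succ (Q * X)]
      noncomm_ring
  rw [h n, Matrix.trace_mul_comm, ← mul_assoc, ← pow_succ']

theorem tn_eq {Q E : Matrix κ κ ℂ} (hQ : Q.IsHermitian) (hE : E.PosDef) {τ s : ℝ} (hτ : 0 ≤ τ)
    (hs : 0 ≤ s) (n : ℕ) : tn (E + τ • (Q * Q)) (Q * Q) (n + 1) s =
      trF (fun y => (y / (1 + τ * y)) ^ (n + 1)) (Q * Res E s * Q) := by
  set R := Res (E + τ • (Q * Q)) s with hR
  set R0 := Res E s with hR0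
  set Y := Q * R0 * Q with hYd
  set Z := Q * R * Q with hZd
  have hE1 : (E + (s : ℂ) • (1 : Matrix κ κ ℂ)).PosDef := INE.shift_posDef hE hs
  have hQQ : (Q * Q).PosSemidef := by
    have := Matrix.posSemidef_self_mul_conjTranspose Q
    rwa [hQ.eq] at this
  have hE2 : (E + τ • (Q * Q)).PosDef := hE.add_posSemidef (hQQ.smul hτ)
  have hE3 : (E + τ • (Q * Q) + (s : ℂ) • (1 : Matrix κ κ ℂ)).PosDef := INE.shift_posDef hE2 hs
  have u1 : R0 * (E + (s : ℂ) • (1 : Matrix κ κ ℂ)) = 1 :=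
    Matrix.nonsing_inv_mul _ ((Matrix.isUnit_iff_isUnit_det _).1 hE1.isUnit)
  have u1' : (E + (s : ℂ) • (1 : Matrix κ κ ℂ)) * R0 = 1 :=
    Matrix.mul_nonsing_inv _ ((Matrix.isUnit_iff_isUnit_det _).1 hE1.isUnit)
  have u2 : R * (E + τ • (Q * Q) + (s : ℂ) • (1 : Matrix κ κ ℂ)) = 1 :=
    Matrix.nonsing_inv_mul _ ((Matrix.isUnit_iff_isUnit_det _).1 hE3.isUnit)
  have hτc : τ • (Q * Q) = (τ : ℂ) • (Q * Q) := by
    ext i j
    simp
  have key : Z * (1 + (τ : ℂ) • Y) = Y := by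
    have k1 : Z * (1 + (τ : ℂ) • Y) =
        Q * (R * (1 + (τ : ℂ) • (Q * Q * R0))) * Q := by
      simp only [hZd, hYd]
      simp only [mul_add, add_mul, mul_one, Matrix.mul_smul, Matrix.smul_mul]
      congr 2
      noncomm_ring
    have k2 : R * (1 + (τ : ℂ) • (Q * Q * R0)) = R0 := by
      calc R * (1 + (τ : ℂ) • (Q * Q * R0))
          = R * ((E + (s : ℂ) • (1 : Matrix κ κ ℂ)) * R0 + (τ : ℂ) • (Q * Q * R0)) := by rw [u1']
        _ = R * (E + τ • (Q * Q) + (s : ℂ) • (1 : Matrix κ κ ℂ)) * R0 := by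
            rw [hτc]
            simp only [mul_add, add_mul, mul_one, one_mul, Matrix.mul_smul, Matrix.smul_mul,
              mul_assoc]
            abel
        _ = R0 := by rw [u2, one_mul]
    rw [k1, k2]
  have hY : Y.PosSemidef := INE.conj_res_posSemidef hQ hE hs
  obtain ⟨U, h1, h2, h3⟩ := exists_diag_eig hY.isHermitian
  set y := hY.isHermitian.eigenvalues with hy
  have hy0 : ∀ i, 0 ≤ y i := fun i => hY.eigenvalues_nonneg i
  have hd : ∀ i, 1 + τ * y i ≠ 0 := by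
    intro i
    have := mul_nonneg hτ (hy0 i)
    positivity
  have hYU : Y = U * Matrix.diagonal (fun i => (y i : ℂ)) * Uᴴ := by
    rw [← h3]
    calc Y = (U * Uᴴ) * Y * (U * Uᴴ) := by rw [h1]; simp
      _ = _ := by noncomm_ring
  have hZU : Z = U * Matrix.diagonal (fun i => ((y i / (1 + τ * y i) : ℝ) : ℂ)) * Uᴴ := by
    have e1 : (1 + (τ : ℂ) • Y) = U * Matrix.diagonal (fun i => ((1 + τ * y i : ℝ) : ℂ)) * Uᴴ := by
      have e2 : Matrix.diagonal (fun i => ((1 + τ * y i : ℝ) : ℂ)) =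
          1 + (τ : ℂ) • Matrix.diagonal (fun i => (y i : ℂ)) := by
        ext i j
        by_cases hij : i = j
        · subst hij
          simp
        · simp [hij]
      rw [e2, mul_add, add_mul, mul_one, h1, Matrix.mul_smul, Matrix.smul_mul, ← hYU]
    have e3 : (1 + (τ : ℂ) • Y) * (U * Matrix.diagonal
        (fun i => (((1 + τ * y i)⁻¹ : ℝ) : ℂ)) * Uᴴ) = 1 := by
      rw [e1]
      calc U * Matrix.diagonal (fun i => ((1 + τ * y i : ℝ) : ℂ)) * Uᴴ *
            (U * Matrix.diagonal (fun i => (((1 + τ * y i)⁻¹ : ℝ) : ℂ)) * Uᴴ)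
          = U * (Matrix.diagonal (fun i => ((1 + τ * y i : ℝ) : ℂ)) * (Uᴴ * U) *
              Matrix.diagonal (fun i => (((1 + τ * y i)⁻¹ : ℝ) : ℂ))) * Uᴴ := by noncomm_ring
        _ = U * 1 * Uᴴ := by
            rw [h2, mul_one, Matrix.diagonal_mul_diagonal]
            congr 2
            rw [← Matrix.diagonal_one]
            congr 1
            ext i
            rw [← Complex.ofReal_mul, mul_inv_cancel₀ (hd i)]
            simp
        _ = 1 := by rw [mul_one, h1]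
    calc Z = Z * ((1 + (τ : ℂ) • Y) * (U * Matrix.diagonal
        (fun i => (((1 + τ * y i)⁻¹ : ℝ) : ℂ)) * Uᴴ)) := by rw [e3, mul_one]
      _ = Y * (U * Matrix.diagonal (fun i => (((1 + τ * y i)⁻¹ : ℝ) : ℂ)) * Uᴴ) := by
          rw [← mul_assoc, key]
      _ = U * (Matrix.diagonal (fun i => (y i : ℂ)) * (Uᴴ * U) *
            Matrix.diagonal (fun i => (((1 + τ * y i)⁻¹ : ℝ) : ℂ))) * Uᴴ := by
          conv_lhs => rw [hYU]
          noncomm_ring
      _ = _ := by
          rw [h2, mul_one, Matrix.diagonal_mul_diagonal]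
          congr 3
          ext i
          rw [← Complex.ofReal_mul, div_eq_mul_inv]
  have hZ6 : Z ^ (n + 1) =
      U * Matrix.diagonal (fun i => (((y i / (1 + τ * y i)) ^ (n + 1) : ℝ) : ℂ)) * Uᴴ := by
    rw [hZU, conj_pow h2 h1, Matrix.diagonal_pow]
    congr 3
    funext i
    simp
  have htn : tn (E + τ • (Q * Q)) (Q * Q) (n + 1) s = ((Z ^ (n + 1)).trace).re := by
    unfold tn
    rw [← hR]
    have := trace_pow_cyc (R * Q) Q n
    rw [show R * Q * Q = R * (Q * Q) from by rw [mul_assoc],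
      show Q * (R * Q) = Z from by rw [hZd, mul_assoc]] at this
    rw [this]
  rw [htn, hZ6, Matrix.trace_mul_comm, ← mul_assoc, h2, one_mul, Matrix.trace_diagonal]
  conv_rhs => rw [hYU]
  rw [TRF.trF_conj _ h2]
  rw [← Complex.ofReal_sum, Complex.ofReal_re]

/-! ### measurability -/

theorem meas_pow {X : Type} [MeasurableSpace X] {M : X → Matrix κ κ ℂ}
    (h : ∀ i j, Measurable fun x => M x i j) (n : ℕ) :
    ∀ i j, Measurable fun x => (M x ^ n) i j := by
  induction n with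
  | zero =>
    intro i j
    simp only [pow_zero]
    exact measurable_const
  | succ n ih =>
    intro i j
    simp only [pow_succ, Matrix.mul_apply]
    exact Finset.measurable_fun_sum _ fun k _ => (ih i k).mul (h k j)

theorem meas_tn (E F : Matrix κ κ ℂ) (n : ℕ) :
    Measurable fun x : ℝ × ℝ => tn (E + x.1 • F) F n x.2 := by
  have hc : Continuous fun x : ℝ × ℝ => (E + x.1 • F + (x.2 : ℂ) • (1 : Matrix κ κ ℂ)) := by
    fun_prop
  have h1 : ∀ i j, Measurable fun x : ℝ × ℝ => Res (E + x.1 • F) x.2 i j := by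
    intro i j
    unfold Res
    simp only [Matrix.inv_def, Ring.inverse_eq_inv', Matrix.smul_apply, smul_eq_mul]
    exact (hc.matrix_det.measurable.inv).mul
      ((hc.matrix_adjugate.matrix_elem i j).measurable)
  have h2 : ∀ i j, Measurable fun x : ℝ × ℝ => (Res (E + x.1 • F) x.2 * F) i j := by
    intro i j
    simp only [Matrix.mul_apply]
    exact Finset.measurable_fun_sum _ fun k _ => (h1 i k).mul_const _
  have h3 := meas_pow h2 n
  unfold tn
  apply Complex.measurable_re.comp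
  simp only [Matrix.trace, Matrix.diag_apply]
  exact Finset.measurable_fun_sum _ fun k _ => h3 k k

/-! ### integrability of the `Y` side -/

theorem trF_eq_sum {f : ℝ → ℝ} {M : Matrix κ κ ℂ} (h : M.IsHermitian) :
    trF f M = ∑ i, f (h.eigenvalues i) := by
  unfold trF
  rw [dif_pos h]

theorem tn_zero {Q E : Matrix κ κ ℂ} (hQ : Q.IsHermitian) (hE : E.PosDef) {s : ℝ}
    (hs : 0 ≤ s) (n : ℕ) : tn E (Q * Q) (n + 1) s =
      trF (fun y => y ^ (n + 1)) (Q * Res E s * Q) := by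
  have h := tn_eq hQ hE (le_refl 0) hs n
  simpa using h

theorem intY {p : ℝ} (h3 : 3 < p) (h4 : p < 4) {Q E : Matrix κ κ ℂ} (hQ : Q.IsHermitian)
    (hE : E.PosDef) : IntegrableOn (fun s : ℝ => s ^ (p - 1) *
      trF (fun y => y ^ (p + 1)) (Q * Res E s * Q)) (Ioi 0) := by
  have i4 := integrableOn_tn p E (Q * Q) hE 4 (by linarith) (by norm_num; linarith)
  have i5 := integrableOn_tn p E (Q * Q) hE 5 (by linarith) (by norm_num; linarith)
  have c2 : ContinuousOn (fun x : ℝ => trF (INE.pp (p + 1)) (Q * Res E x * Q)) (Ioi 0) := by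
    rw [continuousOn_iff_continuous_domRestrict]
    apply INE.continuous_trF (INE.pp (p + 1)) (INE.continuous_pp (by linarith))
      (fun x : Ioi (0 : ℝ) => Q * Res E (x : ℝ) * Q)
    · exact continuousOn_iff_continuous_domRestrict.mp
        ((INE.continuousOn_Ys hE).mono Ioi_subset_Ici_self)
    · intro x
      exact (INE.conj_res_posSemidef hQ hE (le_of_lt x.2)).isHermitian
  have c3 : ContinuousOn (fun x : ℝ => x ^ (p - 1) *
      trF (INE.pp (p + 1)) (Q * Res E x * Q)) (Ioi 0) := by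
    apply ContinuousOn.mul _ c2
    intro x hx
    exact (Real.continuousAt_rpow_const x _ (Or.inl (ne_of_gt hx))).continuousWithinAt
  have e : ∀ x ∈ Ioi (0 : ℝ), x ^ (p - 1) * trF (INE.pp (p + 1)) (Q * Res E x * Q) =
      x ^ (p - 1) * trF (fun y => y ^ (p + 1)) (Q * Res E x * Q) := by
    intro x hx
    have hY : (Q * Res E x * Q).PosSemidef := INE.conj_res_posSemidef hQ hE (le_of_lt hx)
    rw [INE.trF_pp_of_posSemidef hY]
  apply IntegrableOn.congr_fun _ e measurableSet_Ioi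
  refine Integrable.mono' (i4.add i5) (c3.aestronglyMeasurable measurableSet_Ioi) ?_
  refine ae_restrict_of_forall_mem measurableSet_Ioi fun x hx => ?_
  have hx0 : (0 : ℝ) < x := hx
  have hY : (Q * Res E x * Q).PosSemidef := INE.conj_res_posSemidef hQ hE (le_of_lt hx)
  rw [Pi.add_apply, e x hx, tn_zero hQ hE hx0.le 3, tn_zero hQ hE hx0.le 4,
    trF_eq_sum hY.isHermitian, trF_eq_sum hY.isHermitian, trF_eq_sum hY.isHermitian, ← mul_add,
    ← Finset.sum_add_distrib]
  have hs : 0 ≤ ∑ i, hY.isHermitian.eigenvalues i ^ (p + 1) :=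
    Finset.sum_nonneg fun i _ => Real.rpow_nonneg (hY.eigenvalues_nonneg i) _
  rw [Real.norm_of_nonneg (by positivity)]
  apply mul_le_mul_of_nonneg_left _ (by positivity)
  apply Finset.sum_le_sum
  intro i _
  set y := hY.isHermitian.eigenvalues i
  have hy : 0 ≤ y := hY.eigenvalues_nonneg i
  rcases hy.eq_or_lt with h0 | h0
  · rw [← h0, Real.zero_rpow (by linarith)]
    norm_num
  rcases le_total y 1 with h | h
  · have : y ^ (p + 1) ≤ y ^ (4 : ℝ) := Real.rpow_le_rpow_of_exponent_ge h0 h (by linarith)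
    have e4 : y ^ (4 : ℝ) = y ^ (4 : ℕ) := by norm_cast
    rw [e4] at this
    have : 0 ≤ y ^ 5 := by positivity
    show y ^ (p + 1) ≤ y ^ (3 + 1) + y ^ (4 + 1)
    norm_num
    linarith
  · have : y ^ (p + 1) ≤ y ^ (5 : ℝ) := Real.rpow_le_rpow_of_exponent_le h (by linarith)
    have e5 : y ^ (5 : ℝ) = y ^ (5 : ℕ) := by norm_cast
    rw [e5] at this
    have : 0 ≤ y ^ 4 := by positivity
    show y ^ (p + 1) ≤ y ^ (3 + 1) + y ^ (4 + 1)
    norm_num
    linarith

/-! ### the theorem -/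

theorem tau_main {p : ℝ} (h3 : 3 < p) (h4 : p < 4) {Q E : Matrix κ κ ℂ} (hQ : Q.IsHermitian)
    (hE : E.PosDef) :
    IntegrableOn (fun τ : ℝ => τ ^ (4 - p) * In p (E + τ • (Q * Q)) (Q * Q) 6) (Ioi 0) ∧
    ∫ τ in Ioi (0 : ℝ), τ ^ (4 - p) * In p (E + τ • (Q * Q)) (Q * Q) 6 =
      bet (5 - p) 6 * ∫ s in Ioi (0 : ℝ), s ^ (p - 1) *
        trF (fun y => y ^ (p + 1)) (Q * Res E s * Q) := by
  set F := Q * Q with hF
  set Φ : ℝ × ℝ → ℝ := fun x => x.1 ^ (4 - p) * (x.2 ^ (p - 1) * tn (E + x.1 • F) F 6 x.2)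
  have hm : Measurable Φ :=
    (measurable_fst.pow_const _).mul ((measurable_snd.pow_const _).mul (meas_tn E F 6))
  have hin : ∀ s ∈ Ioi (0 : ℝ),
      IntegrableOn (fun τ => Φ (τ, s)) (Ioi 0) ∧
      ∫ τ in Ioi (0 : ℝ), ‖Φ (τ, s)‖ = bet (5 - p) 6 * (s ^ (p - 1) *
        trF (fun y => y ^ (p + 1)) (Q * Res E s * Q)) ∧
      ∫ τ in Ioi (0 : ℝ), Φ (τ, s) = bet (5 - p) 6 * (s ^ (p - 1) *
        trF (fun y => y ^ (p + 1)) (Q * Res E s * Q)) := by
    intro s hs
    have hs0 : (0 : ℝ) < s := hs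
    have hY : (Q * Res E s * Q).PosSemidef := INE.conj_res_posSemidef hQ hE (le_of_lt hs)
    set y := hY.isHermitian.eigenvalues with hyd
    have e : ∀ τ ∈ Ioi (0 : ℝ), Φ (τ, s) =
        ∑ i, s ^ (p - 1) * (τ ^ (4 - p) * (y i / (1 + τ * y i)) ^ 6) := by
      intro τ hτ
      simp only [Φ]
      rw [hF, tn_eq hQ hE (le_of_lt hτ) hs0.le 5, trF_eq_sum hY.isHermitian, Finset.mul_sum,
        Finset.mul_sum]
      apply Finset.sum_congr rfl
      intro i _
      ring
    have hi : ∀ i, IntegrableOn (fun τ : ℝ => s ^ (p - 1) *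
        (τ ^ (4 - p) * (y i / (1 + τ * y i)) ^ 6)) (Ioi 0) := fun i =>
      (scalar_int h3 h4 (hY.eigenvalues_nonneg i)).1.const_mul _
    have hI : IntegrableOn (fun τ => Φ (τ, s)) (Ioi 0) := by
      have := integrable_finsetSum Finset.univ (fun i _ => hi i)
      exact IntegrableOn.congr_fun this (fun τ hτ => (e τ hτ).symm) measurableSet_Ioi
    have hv : ∫ τ in Ioi (0 : ℝ), Φ (τ, s) = bet (5 - p) 6 * (s ^ (p - 1) *
        trF (fun y => y ^ (p + 1)) (Q * Res E s * Q)) := by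
      rw [setIntegral_congr_fun measurableSet_Ioi e, integral_finsetSum _ (fun i _ => hi i),
        trF_eq_sum hY.isHermitian, Finset.mul_sum, Finset.mul_sum]
      apply Finset.sum_congr rfl
      intro i _
      rw [integral_const_mul, (scalar_int h3 h4 (hY.eigenvalues_nonneg i)).2]
      ring
    refine ⟨hI, ?_, hv⟩
    rw [← hv]
    apply setIntegral_congr_fun measurableSet_Ioi
    intro τ hτ
    show ‖Φ (τ, s)‖ = Φ (τ, s)
    apply Real.norm_of_nonneg
    rw [e τ hτ]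
    apply Finset.sum_nonneg
    intro i _
    have hτ0 : (0 : ℝ) < τ := hτ
    have := hY.eigenvalues_nonneg i
    positivity
  have hY := intY h3 h4 hQ hE
  have hprod : Integrable Φ ((volume.restrict (Ioi (0 : ℝ))).prod (volume.restrict (Ioi (0 : ℝ)))) := by
    rw [integrable_prod_iff' hm.aestronglyMeasurable]
    constructor
    · exact ae_restrict_of_forall_mem measurableSet_Ioi fun s hs => (hin s hs).1
    · exact IntegrableOn.congr_fun (hY.const_mul (bet (5 - p) 6))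
        (fun s hs => ((hin s hs).2.1).symm) measurableSet_Ioi
  have e1 : ∀ τ : ℝ, ∫ s in Ioi (0 : ℝ), Φ (τ, s) = τ ^ (4 - p) * In p (E + τ • F) F 6 := by
    intro τ
    simp only [Φ, In]
    rw [integral_const_mul]
  constructor
  · have := hprod.integral_prod_left
    simp_rw [e1] at this
    exact this
  · have h := integral_integral_swap (f := fun τ s => Φ (τ, s)) hprod
    simp_rw [e1] at h
    rw [h, ← integral_const_mul]
    exact setIntegral_congr_fun measurableSet_Ioi fun s hs => (hin s hs).2.2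

/-- **T2**: the `τ`-integral on the matrix side -/
theorem tau_matrix {p : ℝ} (h3 : 3 < p) (h4 : p < 4) {F E : Matrix κ κ ℂ} (hF : F.PosDef)
    (hE : E.PosDef) :
    IntegrableOn (fun τ : ℝ => τ ^ (4 - p) * (In p (E + τ • F) F 6 / bet p 6)) (Ioi 0) ∧
    (5 - p) * ∫ τ in Ioi (0 : ℝ), τ ^ (4 - p) * (In p (E + τ • F) F 6 / bet p 6) =
      Rr p F E := by
  obtain ⟨h1, h2⟩ := tau_main h3 h4 (INE.half_isHermitian F) hE
  rw [INE.half_mul_half hF.posSemidef] at h1 h2
  have e : ∀ τ : ℝ, τ ^ (4 - p) * (In p (E + τ • F) F 6 / bet p 6) =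
      (bet p 6)⁻¹ * (τ ^ (4 - p) * In p (E + τ • F) F 6) := by
    intro τ
    ring
  constructor
  · simp_rw [e]
    exact h1.const_mul _
  · simp_rw [e]
    rw [integral_const_mul, h2]
    have hR := INE.rpos_eq_rf' (p := p) (by linarith) hF.posSemidef hE
    have hL : Rr p F E = (p + 1) * ∫ s in Ioi (0 : ℝ),
        (Matrix.trace (cfc (fun x : ℝ => (max x 0) ^ p) (F - s • E))).re := rfl
    rw [hL, hR]
    have e2 : ∀ s ∈ Ioi (0 : ℝ), s ^ (p - 1) * (Matrix.trace (cfc (fun y : ℝ => y ^ (p + 1))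
        (cfc (fun x : ℝ => x ^ (1 / 2 : ℝ)) F * Res E s *
          cfc (fun x : ℝ => x ^ (1 / 2 : ℝ)) F))).re =
        s ^ (p - 1) * trF (fun y => y ^ (p + 1))
        (cfc (fun x : ℝ => x ^ (1 / 2 : ℝ)) F * Res E s * cfc (fun x : ℝ => x ^ (1 / 2 : ℝ)) F) := by
      intro s hs
      rw [trF_eq_cfc _ (INE.conj_res_posSemidef (INE.half_isHermitian F) hE
        (le_of_lt hs)).isHermitian]
    rw [setIntegral_congr_fun measurableSet_Ioi e2]
    have hb := bet_const h3 h4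
    have hb0 : bet p 6 ≠ 0 := (bet_pos p 6 (by linarith) (by norm_num; linarith)).ne'
    set I := ∫ s in Ioi (0 : ℝ), s ^ (p - 1) * trF (fun y => y ^ (p + 1))
        (cfc (fun x : ℝ => x ^ (1 / 2 : ℝ)) F * Res E s * cfc (fun x : ℝ => x ^ (1 / 2 : ℝ)) F)
    calc (5 - p) * ((bet p 6)⁻¹ * (bet (5 - p) 6 * I))
        = ((5 - p) * bet (5 - p) 6) * (bet p 6)⁻¹ * I := by ring
      _ = p * I := by
        rw [hb]
        field_simp

end Pool.Agent.Lib_helper27.GC34
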