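import Pool.Agent.Lib_helper92.GC.RID
import Pool.Agent.Lib_helper27.GC34.TauM

/-!
# `rid` in coefficient form
-/

open scoped BigOperators ComplexOrder Kronecker MatrixOrder Topology
open MeasureTheory Set Filter

namespace Pool.Agent.Lib_helper27.GC34

open Pool.Agent.GC34 Pool.Agent.RC

variable {κ : Type} [Fintype κ] [DecidableEq κ]

theorem rid_coeff {p : ℝ} (h3 : 3 < p) (h4 : p < 4) {C D : Matrix κ κ ℂ} (h : Strict C D)
    {lam η : ℝ} (hl : |lam| < 1) (hη : |η| < 1) {a : ℕ → ℝ}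
    (ha : ∀ x : ℝ, |x| < 1 →
      HasSum (fun k => a k * x ^ k) ((1 + lam * x) ^ (p + 1) / (1 + η * x))) :
    HasSum (fun k => a k * ms p C D k)
      ((Rr p (C + lam • D) (C + η • D) + Rr p (C - lam • D) (C - η • D)) / 2) :=
  Pool.Agent.GC.rid_coeff_of h3 h4 (fun hF hE => tau_matrix h3 h4 hF hE) h hl hη ha

end Pool.Agent.Lib_helper27.GC34
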