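import Pool.Agent.Lib_helper27.GC34.TauM

/-!
# The integral over `τ` on the circle
-/

open scoped BigOperators ComplexOrder Kronecker MatrixOrder Topology
open MeasureTheory Set Filter

namespace Pool.Agent.Lib_helper27.GC34

open Pool.Agent.GC34 Pool.Agent.RC

/-! ### the scalar identity -/

theorem re_add_pos {e f : ℂ} (he : 0 < e.re) (hf : 0 < f.re) {τ : ℝ} (hτ : 0 ≤ τ) :
    0 < (e + τ * f).re := by
  simp only [Complex.add_re, Complex.mul_re, Complex.ofReal_re, Complex.ofReal_im, zero_mul,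
    sub_zero]
  positivity

theorem slit_of_re {z : ℂ} (h : 0 < z.re) : z ∈ Complex.slitPlane := Or.inl h

theorem ne_of_re {z : ℂ} (h : 0 < z.re) : z ≠ 0 := by
  rintro rfl
  simp at h

theorem norm_cpow_real {z : ℂ} (hz : z ≠ 0) (a : ℝ) : ‖z ^ (a : ℂ)‖ = ‖z‖ ^ a := by
  rw [Complex.norm_cpow_of_ne_zero hz]
  simp

/-- the bound of the integrand -/
theorem norm_tau_le {e f : ℂ} {p δ : ℝ} (h4 : p < 4) (hδ : 0 < δ) (he : δ ≤ e.re)
    (hf : δ ≤ f.re) {τ : ℝ} (hτ : 0 < τ) :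
    ‖((τ ^ (4 - p) : ℝ) : ℂ) * (e + τ * f) ^ ((p : ℂ) - 6)‖ ≤
      δ ^ (p - 6) * (τ ^ (5 - p - 1) * ((1 + τ) ^ 2)⁻¹) := by
  have hne : e + τ * f ≠ 0 := ne_of_re (re_add_pos (by linarith) (by linarith) hτ.le)
  have hc : (p : ℂ) - 6 = ((p - 6 : ℝ) : ℂ) := by push_cast; ring
  rw [norm_mul, Complex.norm_real, Real.norm_of_nonneg (by positivity), hc, norm_cpow_real hne]
  have h1 : δ * (1 + τ) ≤ ‖e + τ * f‖ := by
    calc δ * (1 + τ) ≤ (e + τ * f).re := by
          simp only [Complex.add_re, Complex.mul_re, Complex.ofReal_re, Complex.ofReal_im,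
            zero_mul, sub_zero]
          nlinarith
      _ ≤ ‖e + τ * f‖ := Complex.re_le_norm _
  have h2 : ‖e + τ * f‖ ^ (p - 6) ≤ (δ * (1 + τ)) ^ (p - 6) :=
    Real.rpow_le_rpow_of_nonpos (by positivity) h1 (by linarith)
  have h3 : (δ * (1 + τ)) ^ (p - 6) = δ ^ (p - 6) * (1 + τ) ^ (p - 6) :=
    Real.mul_rpow hδ.le (by linarith)
  have h5 : (1 + τ) ^ (p - 6) ≤ ((1 + τ) ^ 2)⁻¹ := by
    have : ((1 + τ) ^ 2)⁻¹ = (1 + τ) ^ (-2 : ℝ) := by
      rw [Real.rpow_neg (by linarith)]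
      norm_cast
    rw [this]
    exact Real.rpow_le_rpow_of_exponent_le (by linarith) (by linarith)
  have e1 : 5 - p - 1 = 4 - p := by ring
  rw [e1]
  calc τ ^ (4 - p) * ‖e + τ * f‖ ^ (p - 6) ≤ τ ^ (4 - p) * (δ ^ (p - 6) * ((1 + τ) ^ 2)⁻¹) := by
        apply mul_le_mul_of_nonneg_left _ (by positivity)
        rw [h3] at h2
        exact h2.trans (mul_le_mul_of_nonneg_left h5 (by positivity))
    _ = _ := by ring

theorem bound_int {p : ℝ} (h3 : 3 < p) (h4 : p < 4) (c : ℝ) :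
    IntegrableOn (fun τ : ℝ => c * (τ ^ (5 - p - 1) * ((1 + τ) ^ 2)⁻¹)) (Ioi 0) :=
  (integrableOn_bet (5 - p) 2 (by linarith) (by norm_num; linarith)).const_mul c

theorem scalar_tau {e f : ℂ} {p : ℝ} (h3 : 3 < p) (h4 : p < 4) (he : 0 < e.re)
    (hf : 0 < f.re) :
    IntegrableOn (fun τ : ℝ => ((τ ^ (4 - p) : ℝ) : ℂ) * (e + τ * f) ^ ((p : ℂ) - 6)) (Ioi 0) ∧
    ((5 - p : ℝ) : ℂ) * ∫ τ in Ioi (0 : ℝ), ((τ ^ (4 - p) : ℝ) : ℂ) *
      (e + τ * f) ^ ((p : ℂ) - 6) = f ^ ((p : ℂ) - 5) / e := by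
  set δ : ℝ := min e.re f.re with hδd
  have hδ : 0 < δ := lt_min he hf
  have hI : IntegrableOn (fun τ : ℝ => ((τ ^ (4 - p) : ℝ) : ℂ) *
      (e + τ * f) ^ ((p : ℂ) - 6)) (Ioi 0) := by
    refine Integrable.mono' (bound_int h3 h4 (δ ^ (p - 6))) ?_ ?_
    · apply ContinuousOn.aestronglyMeasurable _ measurableSet_Ioi
      intro τ hτ
      have hτ0 : (0 : ℝ) < τ := hτ
      apply ContinuousAt.continuousWithinAt
      apply ContinuousAt.mul
      · exact Complex.continuous_ofReal.continuousAt.comp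
          (Real.continuousAt_rpow_const τ _ (Or.inl hτ0.ne'))
      · exact (continuousAt_cpow_const (b := (p : ℂ) - 6)
          (slit_of_re (re_add_pos he hf hτ0.le))).comp
          (f := fun τ : ℝ => e + τ * f) (by fun_prop)
    · refine ae_restrict_of_forall_mem measurableSet_Ioi fun τ hτ => ?_
      exact norm_tau_le h4 hδ (min_le_left _ _) (min_le_right _ _) hτ
  refine ⟨hI, ?_⟩
  set Gf : ℝ → ℂ := fun τ => ((τ ^ (5 - p) : ℝ) : ℂ) * (e + τ * f) ^ ((p : ℂ) - 5) with hG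
  set Gd : ℝ → ℂ := fun τ => ((5 - p : ℝ) : ℂ) * e * (((τ ^ (4 - p) : ℝ) : ℂ) *
    (e + τ * f) ^ ((p : ℂ) - 6)) with hGd
  have hc : ContinuousWithinAt Gf (Ici 0) 0 := by
    apply ContinuousAt.continuousWithinAt
    apply ContinuousAt.mul
    · exact Complex.continuous_ofReal.continuousAt.comp
        (Real.continuousAt_rpow_const 0 _ (Or.inr (by linarith)))
    · exact (continuousAt_cpow_const (b := (p : ℂ) - 5)
          (slit_of_re (re_add_pos he hf le_rfl))).comp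
          (f := fun τ : ℝ => e + τ * f) (by fun_prop)
  have hd : ∀ τ ∈ Ioi (0 : ℝ), HasDerivAt Gf (Gd τ) τ := by
    intro τ hτ
    have hτ0 : (0 : ℝ) < τ := hτ
    have hs : e + τ * f ∈ Complex.slitPlane := slit_of_re (re_add_pos he hf hτ0.le)
    have hne : e + τ * f ≠ 0 := ne_of_re (re_add_pos he hf hτ0.le)
    have d1 : HasDerivAt (fun t : ℝ => ((t ^ (5 - p) : ℝ) : ℂ))
        (((5 - p) * τ ^ (5 - p - 1) : ℝ) : ℂ) τ :=
      (Real.hasDerivAt_rpow_const (Or.inl hτ0.ne')).ofReal_comp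
    have d2 : HasDerivAt (fun t : ℝ => (e + t * f) ^ ((p : ℂ) - 5))
        (((p : ℂ) - 5) * (e + τ * f) ^ ((p : ℂ) - 5 - 1) * f) τ := by
      have d3 : HasDerivAt (fun t : ℝ => e + t * f) f τ := by
        have := ((hasDerivAt_id τ).ofReal_comp.mul_const f).const_add e
        simpa using this
      have d4 := (hasDerivAt_id (e + τ * f)).cpow_const (c := (p : ℂ) - 5) hs
      have d5 := HasDerivAt.comp τ d4 d3
      simp only [id, mul_one] at d5
      exact d5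
    have d := d1.mul d2
    have key : (((5 - p) * τ ^ (5 - p - 1) : ℝ) : ℂ) * (e + τ * f) ^ ((p : ℂ) - 5) +
        ((τ ^ (5 - p) : ℝ) : ℂ) * (((p : ℂ) - 5) * (e + τ * f) ^ ((p : ℂ) - 5 - 1) * f) =
        Gd τ := by
      simp only [hGd]
      have e1 : (5 - p - 1 : ℝ) = 4 - p := by ring
      have e2 : (p : ℂ) - 5 - 1 = (p : ℂ) - 6 := by ring
      have e3 : (e + τ * f) ^ ((p : ℂ) - 5) = (e + τ * f) ^ ((p : ℂ) - 6) * (e + τ * f) := by
        have : (p : ℂ) - 5 = ((p : ℂ) - 6) + 1 := by ring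
        rw [this, Complex.cpow_add _ _ hne, Complex.cpow_one]
      have e4 : (τ ^ (5 - p) : ℝ) = τ ^ (4 - p) * τ := by
        have : (5 - p : ℝ) = (4 - p) + 1 := by ring
        rw [this, Real.rpow_add hτ0, Real.rpow_one]
      rw [e1, e2, e3, e4]
      push_cast
      ring
    rw [← key]
    exact d
  have ht : Tendsto Gf atTop (𝓝 (f ^ ((p : ℂ) - 5))) := by
    have h1 : Tendsto (fun τ : ℝ => (((τ⁻¹ : ℝ) : ℂ) * e + f) ^ ((p : ℂ) - 5)) atTop
        (𝓝 (f ^ ((p : ℂ) - 5))) := by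
      have h2 : Tendsto (fun τ : ℝ => (((τ⁻¹ : ℝ) : ℂ) * e + f)) atTop (𝓝 f) := by
        have h3 : Tendsto (fun τ : ℝ => ((τ⁻¹ : ℝ) : ℂ)) atTop (𝓝 ((0 : ℝ) : ℂ)) :=
          (Complex.continuous_ofReal.tendsto 0).comp tendsto_inv_atTop_zero
        have h4 := (h3.mul_const e).add_const f
        simpa using h4
      have h5 : ContinuousAt (fun z : ℂ => z ^ ((p : ℂ) - 5)) f :=
        continuousAt_cpow_const (slit_of_re hf)
      exact h5.tendsto.comp h2
    apply h1.congr'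
    filter_upwards [eventually_gt_atTop 0] with τ hτ
    simp only [hG]
    have e1 : e + (τ : ℂ) * f = (τ : ℂ) * (((τ⁻¹ : ℝ) : ℂ) * e + f) := by
      have : (τ : ℂ) ≠ 0 := by exact_mod_cast hτ.ne'
      push_cast
      field_simp
    have hw : ((τ⁻¹ : ℝ) : ℂ) * e + f ≠ 0 := by
      intro h0
      rw [h0, mul_zero] at e1
      exact ne_of_re (re_add_pos he hf hτ.le) e1
    have e2 : ((τ : ℂ) * (((τ⁻¹ : ℝ) : ℂ) * e + f)) ^ ((p : ℂ) - 5) =
        ((τ ^ (p - 5) : ℝ) : ℂ) * (((τ⁻¹ : ℝ) : ℂ) * e + f) ^ ((p : ℂ) - 5) := by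
      have hτc : (τ : ℂ) ≠ 0 := by exact_mod_cast hτ.ne'
      rw [Complex.cpow_def_of_ne_zero (mul_ne_zero hτc hw), Complex.cpow_def_of_ne_zero hw,
        Complex.log_ofReal_mul hτ hw, Real.rpow_def_of_pos hτ, add_mul, Complex.exp_add]
      push_cast
      rfl
    have e3 : ((τ ^ (5 - p) : ℝ) : ℂ) * ((τ ^ (p - 5) : ℝ) : ℂ) = 1 := by
      rw [← Complex.ofReal_mul, ← Real.rpow_add hτ]
      simp
    rw [e1, e2, ← mul_assoc, e3, one_mul]
  have h := integral_Ioi_of_hasDerivAt_of_tendsto hc hd (hI.const_mul _) ht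
  have g0 : Gf 0 = 0 := by
    simp only [hG]
    rw [Real.zero_rpow (by linarith)]
    simp
  rw [g0, sub_zero] at h
  simp only [hGd] at h
  rw [integral_const_mul] at h
  have he0 : e ≠ 0 := ne_of_re he
  rw [← h, mul_comm ((5 - p : ℝ) : ℂ) e, mul_assoc, mul_div_cancel_left₀ _ he0]

/-! ### the circle -/

theorem re_lin {lam r : ℝ} (hr : 1 < r) (θ : ℝ) :
    1 - |lam| * r ≤ (1 + (lam : ℂ) * cz r θ).re := by
  have h1 : ‖(lam : ℂ) * cz r θ‖ = |lam| * r := by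
    rw [norm_mul, norm_cz (by linarith), Complex.norm_real, Real.norm_eq_abs]
  have h2 : -(|lam| * r) ≤ ((lam : ℂ) * cz r θ).re := by
    rw [← h1]
    exact neg_le_of_abs_le (Complex.abs_re_le_norm _)
  rw [Complex.add_re, Complex.one_re]
  linarith

theorem norm_lin {lam r : ℝ} (hr : 1 < r) (hl : |lam| * r < 1) (θ : ℝ) :
    ‖(1 + (lam : ℂ) * cz r θ)‖ ≤ 2 := by
  have h1 : ‖(lam : ℂ) * cz r θ‖ = |lam| * r := by
    rw [norm_mul, norm_cz (by linarith), Complex.norm_real, Real.norm_eq_abs]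
  calc ‖(1 + (lam : ℂ) * cz r θ)‖ ≤ ‖(1 : ℂ)‖ + ‖(lam : ℂ) * cz r θ‖ := norm_add_le _ _
    _ ≤ 2 := by rw [h1, norm_one]; linarith

/-- the integrand on the circle -/
noncomputable def Kt (p lam eta τ : ℝ) (z : ℂ) : ℂ :=
  (1 + lam * z) ^ 6 * ((1 + eta * z) + τ * (1 + lam * z)) ^ ((p : ℂ) - 6)

/-- **T1**: the `τ`-integral on the circle -/
theorem tau_circle {p r lam eta : ℝ} (h3 : 3 < p) (h4 : p < 4) (hr : 1 < r)
    (hl : |lam| * r < 1) (he : |eta| * r < 1) {μ : ℕ → ℝ} {K : ℝ} (hK : ∀ k, |μ k| ≤ K) :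
    IntegrableOn (fun τ : ℝ => ((τ ^ (4 - p) : ℝ) : ℂ) * cell μ r (Kt p lam eta τ)) (Ioi 0) ∧
    cell μ r (fun z => (1 + lam * z) ^ ((p : ℂ) + 1) / (1 + eta * z)) =
      ((5 - p : ℝ) : ℂ) * ∫ τ in Ioi (0 : ℝ), ((τ ^ (4 - p) : ℝ) : ℂ) *
        cell μ r (Kt p lam eta τ) := by
  set δ : ℝ := min (1 - |lam| * r) (1 - |eta| * r) with hδd
  have hδ : 0 < δ := lt_min (by linarith) (by linarith)
  set F : ℝ → ℂ → ℂ := fun τ z => if 0 < τ then ((τ ^ (4 - p) : ℝ) : ℂ) * Kt p lam eta τ z else 0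
    with hF
  set g : ℝ → ℝ := fun τ => if 0 < τ then
    (2 : ℝ) ^ 6 * δ ^ (p - 6) * (τ ^ (5 - p - 1) * ((1 + τ) ^ 2)⁻¹) else 0 with hg
  have hgi : Integrable g (volume.restrict (Ioi (0 : ℝ))) := by
    apply (bound_int h3 h4 ((2 : ℝ) ^ 6 * δ ^ (p - 6))).congr_fun _ measurableSet_Ioi
    intro τ hτ
    have hτ0 : (0 : ℝ) < τ := hτ
    simp only [hg, if_pos hτ0]
  have hb : ∀ τ θ, ‖F τ (cz r θ)‖ ≤ g τ := by
    intro τ θ
    simp only [hF, hg]
    split_ifs with hτ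
    · have b1 := norm_tau_le (e := 1 + (eta : ℂ) * cz r θ) (f := 1 + (lam : ℂ) * cz r θ)
        h4 hδ ((min_le_right _ _).trans (re_lin hr θ)) ((min_le_left _ _).trans (re_lin hr θ)) hτ
      unfold Kt
      have e1 : ((τ ^ (4 - p) : ℝ) : ℂ) * ((1 + (lam : ℂ) * cz r θ) ^ 6 *
          ((1 + (eta : ℂ) * cz r θ) + τ * (1 + (lam : ℂ) * cz r θ)) ^ ((p : ℂ) - 6)) =
          (1 + (lam : ℂ) * cz r θ) ^ 6 * (((τ ^ (4 - p) : ℝ) : ℂ) *
          ((1 + (eta : ℂ) * cz r θ) + τ * (1 + (lam : ℂ) * cz r θ)) ^ ((p : ℂ) - 6)) := by ring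
      rw [e1, norm_mul, norm_pow, mul_assoc]
      apply mul_le_mul _ b1 (norm_nonneg _) (by positivity)
      exact pow_le_pow_left₀ (norm_nonneg _) (norm_lin hr hl θ) 6
    · simp
  have hm : Measurable fun x : ℝ × ℝ => F x.1 (cz r x.2) := by
    simp only [hF, Kt]
    apply Measurable.ite
    · exact measurableSet_lt measurable_const measurable_fst
    · have hcz : Measurable fun x : ℝ × ℝ => cz r x.2 :=
        (continuous_cz r).measurable.comp measurable_snd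
      apply Measurable.mul
      · exact Complex.measurable_ofReal.comp (measurable_fst.pow_const _)
      · apply Measurable.mul
        · exact ((hcz.const_mul _).const_add _).pow_const 6
        · apply Measurable.pow_const
          exact ((hcz.const_mul _).const_add _).add
            ((Complex.measurable_ofReal.comp measurable_fst).mul
              ((hcz.const_mul _).const_add _))
    · exact measurable_const
  obtain ⟨c1, c2⟩ := cell_integral (ν := volume.restrict (Ioi (0 : ℝ))) hr hK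
    hm.aestronglyMeasurable hgi hb
  have e1 : ∀ τ ∈ Ioi (0 : ℝ), cell μ r (F τ) =
      ((τ ^ (4 - p) : ℝ) : ℂ) * cell μ r (Kt p lam eta τ) := by
    intro τ hτ
    have hτ0 : (0 : ℝ) < τ := hτ
    simp only [hF, if_pos hτ0]
    exact cell_const_mul μ r _ _
  constructor
  · exact IntegrableOn.congr_fun c1 e1 measurableSet_Ioi
  · rw [← setIntegral_congr_fun measurableSet_Ioi e1, ← c2, ← cell_const_mul]
    apply cell_congr
    intro θ
    set f := 1 + (lam : ℂ) * cz r θ with hf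
    set e := 1 + (eta : ℂ) * cz r θ with hed
    have hfr : 0 < f.re := by
      have := re_lin (lam := lam) hr θ
      rw [hf]
      linarith
    have her : 0 < e.re := by
      have := re_lin (lam := eta) hr θ
      rw [hed]
      linarith
    have s := (scalar_tau (e := e) (f := f) h3 h4 her hfr).2
    have e2 : ∫ τ in Ioi (0 : ℝ), F τ (cz r θ) =
        f ^ 6 * ∫ τ in Ioi (0 : ℝ), ((τ ^ (4 - p) : ℝ) : ℂ) * (e + τ * f) ^ ((p : ℂ) - 6) := by
      rw [← integral_const_mul]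
      apply setIntegral_congr_fun measurableSet_Ioi
      intro τ hτ
      have hτ0 : (0 : ℝ) < τ := hτ
      simp only [hF, if_pos hτ0, Kt, ← hf, ← hed]
      ring
    rw [e2]
    have e3 : ((5 - p : ℝ) : ℂ) * (f ^ 6 * ∫ τ in Ioi (0 : ℝ), ((τ ^ (4 - p) : ℝ) : ℂ) *
        (e + τ * f) ^ ((p : ℂ) - 6)) = f ^ 6 * (f ^ ((p : ℂ) - 5) / e) := by
      rw [← s]
      ring
    rw [e3]
    have hf0 : f ≠ 0 := ne_of_re hfr
    have e4 : f ^ ((p : ℂ) + 1) = f ^ 6 * f ^ ((p : ℂ) - 5) := by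
      have : (p : ℂ) + 1 = ((6 : ℕ) : ℂ) + ((p : ℂ) - 5) := by push_cast; ring
      rw [this, Complex.cpow_add _ _ hf0, Complex.cpow_natCast]
    rw [e4]
    ring

end Pool.Agent.Lib_helper27.GC34
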